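import Pool.Agent.Lib.MP_b1a3a4_al.MVS.Interfaces

/-!
# Project MVS, part III (free groups): statements of all modules

The proofs are in `Paper.md`, section 11.
-/

set_option linter.all false

namespace Pool.Agent.Lib.MP_b1a3a4_al.MVS.FR

open Finsupp

/-! ## Permutation modules -/

/-- the permutation module `k[X]` of a `G`-set `X` -/
def PM (k G X : Type) [CommRing k] : Type := X →₀ k

noncomputable instance (k G X : Type) [CommRing k] : AddCommGroup (PM k G X) :=
  inferInstanceAs (AddCommGroup (X →₀ k))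

/-- the action of a group element -/
noncomputable def pmRep (k G X : Type) [CommRing k] [Group G] [MulAction G X] :
    G →* Module.End k (X →₀ k) where
  toFun g := Finsupp.lmapDomain k k (fun x => g • x)
  map_one' := by
    apply Finsupp.lhom_ext
    intro x a
    simp
  map_mul' g h := by
    apply Finsupp.lhom_ext
    intro x a
    simp [mul_smul]

noncomputable instance (k G X : Type) [CommRing k] [Group G] [MulAction G X] :
    Module (MonoidAlgebra k G) (PM k G X) :=
  Module.compHom (X →₀ k) (MonoidAlgebra.lift k (Module.End k (X →₀ k)) G (pmRep k G X)).toRingHom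

/-- the vector `a x` of `k[X]` -/
noncomputable def pt (k G : Type) {X : Type} [CommRing k] (x : X) (a : k) : PM k G X :=
  (Finsupp.single x a : X →₀ k)

lemma single_smul_pt (k G : Type) {X : Type} [CommRing k] [Group G] [MulAction G X] (g : G)
    (c : k) (x : X) (a : k) :
    (MonoidAlgebra.single g c : MonoidAlgebra k G) • (pt k G x a : PM k G X) =
      pt k G (g • x) (c * a) := by
  show (MonoidAlgebra.lift k (Module.End k (X →₀ k)) G (pmRep k G X) (MonoidAlgebra.single g c))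
    (Finsupp.single x a) = Finsupp.single (g • x) (c * a)
  rw [MonoidAlgebra.lift_single]
  simp [pmRep]

/-! ## A. Homological algebra -/

/-- FPSCH (11.1) -/
def FpschStatement : Prop :=
  ∀ (R : Type) [Ring R] (n : ℕ) (A : Type) [AddCommGroup A] [Module R A], IsFP R (n + 1) A →
    ∀ (r : ℕ) (f : (Fin r →₀ R) →ₗ[R] A), Function.Surjective f → IsFP R n (LinearMap.ker f)

/-- FPEXT3 (11.2) -/
def Fpext3Statement : Prop :=
  ∀ (R : Type) [Ring R] (A' A A'' : Type) [AddCommGroup A'] [AddCommGroup A] [AddCommGroup A'']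
    [Module R A'] [Module R A] [Module R A''] (i : A' →ₗ[R] A) (p : A →ₗ[R] A''),
    Function.Injective i → Function.Surjective p → (∀ x, p x = 0 ↔ ∃ y, i y = x) → ∀ n : ℕ,
    IsFP R n A → IsFP R (n + 1) A'' → IsFP R n A'

/-- INDRES (11.3): the induced resolution -/
def IndresStatement : Prop :=
  ∀ (k D G : Type) [CommRing k] [Group D] [Group G] (j : D →* G), Function.Injective j →
    ∀ F : GRes k D, ∃ e : (F.X 0 →₀ MonoidAlgebra k G) →ₗ[MonoidAlgebra k G] PM k G (G ⧸ j.range),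
      (∀ x, e (single x 1) = pt k G ((1 : G) : G ⧸ j.range) (F.ε (single x 1) : k)) ∧
      Function.Surjective e ∧
      (∀ z, e z = 0 ↔ ∃ y, bcD (gmap k j) F.d 0 y = z) ∧
      ∀ q z, bcD (gmap k j) F.d q z = 0 ↔ ∃ y, bcD (gmap k j) F.d (q + 1) y = z

/-- FPINDG (11.4) -/
def FpindgStatement : Prop :=
  ∀ (k D G : Type) [CommRing k] [Group D] [Group G] (j : D →* G), Function.Injective j →
    ∀ n : ℕ, FPn k D n → IsFP (MonoidAlgebra k G) n (PM k G (G ⧸ j.range))

/-- FPDESC (11.5) -/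
def FpdescStatement : Prop :=
  ∀ (k D G : Type) [CommRing k] [Group D] [Group G] (j : D →* G), Function.Injective j →
    ∀ n : ℕ, IsFP (MonoidAlgebra k G) n (PM k G (G ⧸ j.range)) → FPn k D n

/-! ## B. Free groups -/

/-- Data of (11.6): a subgroup `H` of finite index, a retraction `r` of `H` and a derivation `δ`. -/
structure HallData {L : Type} [Group L] (N : Subgroup L) where
  H : Subgroup L
  fin : H.FiniteIndex
  t : H
  ht : (t : L) ∈ N
  r : H →* H
  rr : ∀ h, r (r h) = r h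
  rt : r t = 1
  gen : Subgroup.closure (insert t (Set.range r)) = ⊤
  δ : H → MonoidAlgebra ℤ H
  δmul : ∀ g h, δ (g * h) = δ g + MonoidAlgebra.single g 1 * δ h
  δt : δ t = 1
  δr : ∀ h, δ (r h) = 0

/-- HALL (11.6) -/
def HallStatement : Prop :=
  ∀ (X : Type) [Finite X] (N : Subgroup (FreeGroup X)), N ≠ ⊥ → N.Normal → Nonempty (HallData N)

/-- HALLF (11.6): the same for abstract free groups -/
def HallfStatement : Prop :=
  ∀ (L : Type) [Group L] [IsFreeGroup L], Group.FG L → ∀ N : Subgroup L, N ≠ ⊥ → N.Normal →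
    Nonempty (HallData N)

/-- FGNORM (11.7) -/
def FgnormStatement : Prop :=
  ∀ (L : Type) [Group L] [IsFreeGroup L], Group.FG L → ∀ N : Subgroup L, N ≠ ⊥ → N.Normal →
    N.FG → N.FiniteIndex

/-- ESEQ (11.8): the exact sequence `0 → k[H] → k[H/B] → k → 0`, pulled back along `π : S → H` -/
def EseqStatement : Prop :=
  ∀ (k S H : Type) [CommRing k] [Group S] [Group H] (π : S →* H), Function.Surjective π →
    ∀ (B : Subgroup H) (t : H), Subgroup.closure (insert t (B : Set H)) = ⊤ →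
    ∀ δ : H → MonoidAlgebra ℤ H, (∀ g h, δ (g * h) = δ g + MonoidAlgebra.single g 1 * δ h) →
    δ t = 1 → (∀ b ∈ B, δ b = 0) →
    ∃ (i : PM k S (S ⧸ π.ker) →ₗ[MonoidAlgebra k S] PM k S (S ⧸ B.comap π))
      (p : PM k S (S ⧸ B.comap π) →ₗ[MonoidAlgebra k S] Triv k S),
      Function.Injective i ∧ Function.Surjective p ∧ ∀ x, p x = 0 ↔ ∃ y, i y = x

/-- KRET (11.9): the preimage of `r(H)` is a retract of the preimage of `H` -/
def KretStatement : Prop :=
  ∀ (S L : Type) [Group S] [Group L] (π : S →* L), Function.Surjective π →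
    ∀ (N : Subgroup L) (D : HallData N), N.Normal → ∀ e : N →* S, (∀ x, π (e x) = x) →
    (∀ (x : N) (s : S) (h : π s * x * (π s)⁻¹ ∈ N), e ⟨_, h⟩ = s * e x * s⁻¹) →
    ∃ ρ : D.H.comap π →* D.H.comap π,
      (∀ s, ∃ h : D.H, π (ρ s : S) = (D.r h : L) ∧ (h : L) = π (s : S)) ∧
      ∀ s : D.H.comap π, (∃ h : D.H, π (s : S) = (D.r h : L)) → ρ s = s

/-- KFREE (11.9): `K = ker π` is of type `FP_n` if `S` is of type `FP_{n+1}` -/
def KfreeStatement : Prop :=
  ∀ (k S L : Type) [CommRing k] [Group S] [Group L] (π : S →* L), Function.Surjective π →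
    ∀ N : Subgroup L, Nonempty (HallData N) → N.Normal → ∀ e : N →* S, (∀ x, π (e x) = x) →
    (∀ (x : N) (s : S) (h : π s * x * (π s)⁻¹ ∈ N), e ⟨_, h⟩ = s * e x * s⁻¹) →
    ∀ n : ℕ, FPn k S (n + 1) → FPn k π.ker n

/-- KSUB (11.10): `K_i(S)` is of type `FP_n` if `S` is of type `FP_{n+1}` -/
def KsubStatement : Prop :=
  ∀ (k : Type) [CommRing k] [Nontrivial k] (n : ℕ) (I : Type) [Fintype I] [DecidableEq I]
    (L : I → Type) [∀ i, Group (L i)] [∀ i, IsFreeGroup (L i)] (S : Subgroup (∀ i, L i)) (i : I),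
    nr S i ≠ ⊥ → FPn k S (n + 1) → FPn k (S ⊓ kerJ L {i} : Subgroup (∀ i, L i)) n

/-- VSFREE (11.10) -/
def VsfreeStatement : Prop :=
  ∀ (k : Type) [CommRing k] [Nontrivial k] (n : ℕ), 1 ≤ n →
    ∀ (I : Type) [Fintype I] [DecidableEq I]
    (L : I → Type) [∀ i, Group (L i)] [∀ i, IsFreeGroup (L i)] (U : Finset I)
    (S : Subgroup (∀ i, L i)), (∀ s ∈ S, ∀ i, i ∉ U → s i = 1) → (∀ i ∈ U, nr S i ≠ ⊥) →
    FPn k S n → ∀ J : Finset I, J ⊆ U → J.card = n →
    (S ⊔ kerJ L J).relIndex (piS U S) ≠ 0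

/-- FREERED (11.11) -/
def FreeredStatement : Prop :=
  ∀ n : ℕ, 1 ≤ n → ∀ (I : Type) [Fintype I] [DecidableEq I] (L : I → Type) [∀ i, Group (L i)]
    [∀ i, IsFreeGroup (L i)] (S : Subgroup (∀ i, L i)), n ≤ Fintype.card I → FPn ℤ S n →
    ∀ χ : Chr S, χ ≠ 0 → CharCond n L S χ →
    ∃ (I' : Type) (_ : Fintype I') (_ : DecidableEq I') (L' : I' → Type)
      (_ : ∀ i, Group (L' i)) (S' : Subgroup (∀ i, L' i)) (e : S' ≃* S),
      n ≤ Fintype.card I' ∧ (∀ J : Finset I', J.card = n → (S'.map (projJ L' J)).FiniteIndex) ∧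
      CharCond n L' S' (χ.res (e : S' →* S))

end Pool.Agent.Lib.MP_b1a3a4_al.MVS.FR
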